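import Pool.Agent.V5helper19.ER.Stm2

/-! Project ER, job X4 -/

set_option autoImplicit false
open Finset V5helper19.ER

namespace V5helper6.ER.X4

variable {n : ℕ}

/-- the difference for a transposition -/
noncomputable def dl (b : Fin n → Fin n → ℝ) (x : Equiv.Perm (Fin n)) (i j : Fin n) : ℝ :=
  b i (x i) + b j (x j) - b i (x j) - b j (x i)

noncomputable def Z (b : Fin n → Fin n → ℝ) (x : Equiv.Perm (Fin n)) : ℝ := ∑ i, b i (x i)

theorem Z_swap (b : Fin n → Fin n → ℝ) (x : Equiv.Perm (Fin n)) (i j : Fin n) :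
    Z b x - Z b (x * Equiv.swap i j) = dl b x i j := by
  unfold Z dl
  rcases eq_or_ne i j with rfl | hij
  · simp
  rw [← Finset.sum_sub_distrib]
  have h : ∀ k ∈ (univ : Finset (Fin n)), k ∉ ({i, j} : Finset (Fin n)) →
      b k (x k) - b k ((x * Equiv.swap i j) k) = 0 := by
    intro k _ hk
    simp only [Finset.mem_insert, Finset.mem_singleton, not_or] at hk
    rw [Equiv.Perm.mul_apply, Equiv.swap_apply_of_ne_of_ne hk.1 hk.2, sub_self]
  rw [← Finset.sum_subset (Finset.subset_univ {i, j}) h, Finset.sum_pair hij]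
  simp only [Equiv.Perm.mul_apply, Equiv.swap_apply_left, Equiv.swap_apply_right]
  ring

theorem sum_reidx (x : Equiv.Perm (Fin n)) (f : Fin n → ℝ) : ∑ j, f (x j) = ∑ j, f j :=
  Equiv.sum_comp x f

theorem sum_dl (b : Fin n → Fin n → ℝ) (x : Equiv.Perm (Fin n)) :
    ∑ i, ∑ j, dl b x i j = 2 * n * Z b x - 2 * ∑ i, ∑ j, b i j := by
  have h1 : ∑ i : Fin n, ∑ _j : Fin n, b i (x i) = n * Z b x := by
    simp [Z, Finset.mul_sum]
  have h2 : ∑ _i : Fin n, ∑ j : Fin n, b j (x j) = n * Z b x := by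
    simp [Z]
  have h3 : ∑ i : Fin n, ∑ j : Fin n, b i (x j) = ∑ i, ∑ j, b i j :=
    Finset.sum_congr rfl fun i _ => sum_reidx x (b i)
  have h4 : ∑ i : Fin n, ∑ j : Fin n, b j (x i) = ∑ i, ∑ j, b i j := by
    rw [Finset.sum_comm]; exact h3
  simp only [dl, Finset.sum_sub_distrib, Finset.sum_add_distrib]
  rw [h1, h2, h3, h4]
  ring

theorem sum_dl_sq (b : Fin n → Fin n → ℝ) (x : Equiv.Perm (Fin n)) :
    ∑ i, ∑ j, dl b x i j ^ 2 ≤ 8 * n * (∑ i, b i (x i) ^ 2) + 8 * ∑ i, ∑ j, b i j ^ 2 := by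
  have h1 : ∑ i : Fin n, ∑ _j : Fin n, b i (x i) ^ 2 = n * ∑ i, b i (x i) ^ 2 := by
    simp [Finset.mul_sum]
  have h2 : ∑ _i : Fin n, ∑ j : Fin n, b j (x j) ^ 2 = n * ∑ i, b i (x i) ^ 2 := by
    simp
  have h3 : ∑ i : Fin n, ∑ j : Fin n, b i (x j) ^ 2 = ∑ i, ∑ j, b i j ^ 2 :=
    Finset.sum_congr rfl fun i _ => sum_reidx x (fun k => b i k ^ 2)
  have h4 : ∑ i : Fin n, ∑ j : Fin n, b j (x i) ^ 2 = ∑ i, ∑ j, b i j ^ 2 := by
    rw [Finset.sum_comm]; exact h3
  calc ∑ i, ∑ j, dl b x i j ^ 2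
      ≤ ∑ i, ∑ j, 4 * (b i (x i) ^ 2 + b j (x j) ^ 2 + b i (x j) ^ 2 + b j (x i) ^ 2) := by
        refine Finset.sum_le_sum fun i _ => Finset.sum_le_sum fun j _ => ?_
        unfold dl
        nlinarith [sq_nonneg (b i (x i) - b j (x j)), sq_nonneg (b i (x i) + b i (x j)),
          sq_nonneg (b i (x i) + b j (x i)), sq_nonneg (b j (x j) + b i (x j)),
          sq_nonneg (b j (x j) + b j (x i)), sq_nonneg (b i (x j) - b j (x i))]
    _ = 8 * n * (∑ i, b i (x i) ^ 2) + 8 * ∑ i, ∑ j, b i j ^ 2 := by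
        simp only [mul_add, Finset.sum_add_distrib]
        simp only [← Finset.mul_sum]
        rw [h1, h2, h3, h4]
        ring

theorem sum_mul_right (f : Equiv.Perm (Fin n) → ℝ) (τ : Equiv.Perm (Fin n)) :
    ∑ x, f (x * τ) = ∑ x, f x := Equiv.sum_comp (Equiv.mulRight τ) f

/-- symmetrization -/
theorem symm_step (X : Equiv.Perm (Fin n) → ℝ) (i j : Fin n) :
    ∑ x, X x ^ 3 * (X x - X (x * Equiv.swap i j)) ≤
      3 / 2 * ∑ x, X x ^ 2 * (X x - X (x * Equiv.swap i j)) ^ 2 := by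
  set τ := Equiv.swap i j with hτ
  have hττ : ∀ x : Equiv.Perm (Fin n), x * τ * τ = x := by
    intro x; rw [mul_assoc, hτ, Equiv.swap_mul_self, mul_one]
  have e1 : ∑ x, X x ^ 3 * (X x - X (x * τ)) = ∑ x, X (x * τ) ^ 3 * (X (x * τ) - X x) := by
    rw [← sum_mul_right (fun x => X x ^ 3 * (X x - X (x * τ))) τ]
    refine Finset.sum_congr rfl fun x _ => ?_
    simp only [hττ]
  have e2 : ∑ x, X x ^ 2 * (X x - X (x * τ)) ^ 2 = ∑ x, X (x * τ) ^ 2 * (X x - X (x * τ)) ^ 2 := by
    rw [← sum_mul_right (fun x => X x ^ 2 * (X x - X (x * τ)) ^ 2) τ]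
    refine Finset.sum_congr rfl fun x _ => ?_
    simp only [hττ]
    ring
  have key : ∑ x, X x ^ 3 * (X x - X (x * τ)) + ∑ x, X (x * τ) ^ 3 * (X (x * τ) - X x) ≤
      3 / 2 * (∑ x, X x ^ 2 * (X x - X (x * τ)) ^ 2 +
        ∑ x, X (x * τ) ^ 2 * (X x - X (x * τ)) ^ 2) := by
    rw [← Finset.sum_add_distrib, ← Finset.sum_add_distrib, Finset.mul_sum]
    refine Finset.sum_le_sum fun x _ => ?_
    set p := X x
    set q := X (x * τ)
    have : 3 / 2 * (p ^ 2 * (p - q) ^ 2 + q ^ 2 * (p - q) ^ 2) -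
        (p ^ 3 * (p - q) + q ^ 3 * (q - p)) = 1 / 2 * ((p - q) ^ 2) ^ 2 := by ring
    have h0 : 0 ≤ 1 / 2 * ((p - q) ^ 2) ^ 2 := by positivity
    linarith
  rw [← e1, ← e2] at key
  linarith

theorem swap3 (F : Fin n → Fin n → Equiv.Perm (Fin n) → ℝ) :
    ∑ i, ∑ j, ∑ x, F i j x = ∑ x, ∑ i, ∑ j, F i j x := by
  have : ∀ i, ∑ j, ∑ x, F i j x = ∑ x, ∑ j, F i j x := fun i => Finset.sum_comm
  simp only [this]
  rw [Finset.sum_comm]

/-- one coordinate of a random permutation -/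
theorem sum_one (h : S_TR) (hn : 5 ≤ n) (i : Fin n) (f : Fin n → ℝ) :
    (n : ℝ) * ∑ x : Equiv.Perm (Fin n), f (x i) = n.factorial * ∑ j, f j := by
  obtain ⟨-, -, h3, -, -⟩ := h n hn
  rw [← Finset.sum_fiberwise univ (fun x : Equiv.Perm (Fin n) => x i) (fun x => f (x i)),
    Finset.mul_sum, Finset.mul_sum]
  refine Finset.sum_congr rfl fun j _ => ?_
  have h4 : ∑ x ∈ univ.filter (fun x : Equiv.Perm (Fin n) => x i = j), f (x i) =
      ((univ.filter fun x : Equiv.Perm (Fin n) => x i = j).card : ℝ) * f j := by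
    rw [← nsmul_eq_mul, ← Finset.sum_const]
    refine Finset.sum_congr rfl fun x hx => ?_
    rw [(Finset.mem_filter.1 hx).2]
  rw [h4, ← mul_assoc]
  congr 1
  exact_mod_cast h3 i j

/-- two coordinates of a random permutation -/
theorem sum_two (h : S_TR) (hn : 5 ≤ n) (i i' : Fin n) (hi : i ≠ i') (f g : Fin n → ℝ)
    (hf : ∀ j, 0 ≤ f j) (hg : ∀ j, 0 ≤ g j) :
    (n : ℝ) * (n - 1) * ∑ x : Equiv.Perm (Fin n), f (x i) * g (x i') ≤
      n.factorial * ((∑ j, f j) * ∑ j, g j) := by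
  obtain ⟨-, -, -, h4, -⟩ := h n hn
  have hn1 : ((n - 1 : ℕ) : ℝ) = (n : ℝ) - 1 := by
    rw [Nat.cast_sub (by omega)]; simp
  rw [← Finset.sum_fiberwise univ (fun x : Equiv.Perm (Fin n) => (x i, x i'))
    (fun x => f (x i) * g (x i')), Finset.mul_sum, Finset.sum_mul_sum, Finset.mul_sum,
    Fintype.sum_prod_type]
  refine Finset.sum_le_sum fun j _ => ?_
  rw [Finset.mul_sum]
  refine Finset.sum_le_sum fun j' _ => ?_
  have h5 : ∑ x ∈ univ.filter (fun x : Equiv.Perm (Fin n) => (x i, x i') = (j, j')),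
      f (x i) * g (x i') =
      ((univ.filter fun x : Equiv.Perm (Fin n) => x i = j ∧ x i' = j').card : ℝ) *
        (f j * g j') := by
    rw [← nsmul_eq_mul, ← Finset.sum_const]
    have : (univ.filter fun x : Equiv.Perm (Fin n) => (x i, x i') = (j, j')) =
        univ.filter fun x : Equiv.Perm (Fin n) => x i = j ∧ x i' = j' := by
      ext x; simp [Prod.ext_iff]
    rw [this]
    refine Finset.sum_congr rfl fun x hx => ?_
    rw [(Finset.mem_filter.1 hx).2.1, (Finset.mem_filter.1 hx).2.2]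
  rw [h5, ← mul_assoc]
  refine mul_le_mul_of_nonneg_right ?_ (mul_nonneg (hf j) (hg j'))
  rcases eq_or_ne j j' with rfl | hj
  · have : (univ.filter fun x : Equiv.Perm (Fin n) => x i = j ∧ x i' = j) = ∅ := by
      ext x
      simp only [Finset.mem_filter, Finset.mem_univ, true_and, Finset.notMem_empty, iff_false,
        not_and]
      intro h6 h7
      exact hi (x.injective (h6.trans h7.symm))
    rw [this]
    simp
  · have := h4 i j i' j' hi hj
    rw [← hn1]
    exact_mod_cast this.le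

end V5helper6.ER.X4

open V5helper6.ER.X4 in
theorem V5helper6.ER.t_X4 (h : S_TR) : S_X4 := by
  intro n hn b η hb
  have hn0 : (0 : ℝ) < n := by exact_mod_cast (show 0 < n by omega)
  have hn5 : (5 : ℝ) ≤ n := by exact_mod_cast hn
  set σ : ℝ := ∑ i, ∑ j, b i j ^ 2 with hσ
  set m : ℝ := (∑ i, ∑ j, b i j) / n with hm
  have hσ0 : 0 ≤ σ := Finset.sum_nonneg fun i _ => Finset.sum_nonneg fun j _ => sq_nonneg _
  set X : Equiv.Perm (Fin n) → ℝ := fun x => Z b x - m with hX
  set Y : Equiv.Perm (Fin n) → ℝ := fun x => ∑ i, b i (x i) ^ 2 with hY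
  have hY0 : ∀ x, 0 ≤ Y x := fun x => Finset.sum_nonneg fun i _ => sq_nonneg _
  change ∑ x, X x ^ 4 ≤ _
  set A : ℝ := ∑ x, X x ^ 4 with hA
  have hA0 : 0 ≤ A := Finset.sum_nonneg fun x _ => by positivity
  -- (A), (B)
  have s1 : ∀ x, ∑ i, ∑ j, (X x - X (x * Equiv.swap i j)) = 2 * n * X x := by
    intro x
    have : ∀ i j, X x - X (x * Equiv.swap i j) = dl b x i j := by
      intro i j; rw [← Z_swap]; simp only [hX]; ring
    simp only [this]
    rw [sum_dl]
    simp only [hX, hm]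
    field_simp
  have s2 : 2 * n * A = ∑ i, ∑ j, ∑ x, X x ^ 3 * (X x - X (x * Equiv.swap i j)) := by
    have : ∑ i, ∑ j, ∑ x, X x ^ 3 * (X x - X (x * Equiv.swap i j)) =
        ∑ x, X x ^ 3 * ∑ i, ∑ j, (X x - X (x * Equiv.swap i j)) := by
      rw [swap3]
      refine Finset.sum_congr rfl fun x _ => ?_
      simp only [Finset.mul_sum]
    rw [this, hA, Finset.mul_sum]
    refine Finset.sum_congr rfl fun x _ => ?_
    rw [s1]; ring
  have s3 : 2 * n * A ≤ 3 / 2 * ∑ x, X x ^ 2 * (8 * n * Y x + 8 * σ) := by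
    rw [s2]
    calc ∑ i, ∑ j, ∑ x, X x ^ 3 * (X x - X (x * Equiv.swap i j))
        ≤ ∑ i, ∑ j, 3 / 2 * ∑ x, X x ^ 2 * (X x - X (x * Equiv.swap i j)) ^ 2 :=
          Finset.sum_le_sum fun i _ => Finset.sum_le_sum fun j _ => symm_step X i j
      _ = 3 / 2 * ∑ x, X x ^ 2 * ∑ i, ∑ j, dl b x i j ^ 2 := by
          have : ∀ x i j, (X x - X (x * Equiv.swap i j)) = dl b x i j := by
            intro x i j; rw [← Z_swap]; simp only [hX]; ring
          simp only [this, ← Finset.mul_sum]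
          congr 1
          rw [swap3]
          refine Finset.sum_congr rfl fun x _ => ?_
          simp only [Finset.mul_sum]
      _ ≤ 3 / 2 * ∑ x, X x ^ 2 * (8 * n * Y x + 8 * σ) := by
          refine mul_le_mul_of_nonneg_left (Finset.sum_le_sum fun x _ => ?_) (by norm_num)
          exact mul_le_mul_of_nonneg_left (sum_dl_sq b x) (sq_nonneg _)
  set W : Equiv.Perm (Fin n) → ℝ := fun x => Y x + σ / n with hW
  have s4 : A ≤ 6 * ∑ x, X x ^ 2 * W x := by
    have e : 3 / 2 * ∑ x, X x ^ 2 * (8 * n * Y x + 8 * σ) = 2 * n * (6 * ∑ x, X x ^ 2 * W x) := by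
      have e0 : ∀ x, X x ^ 2 * (8 * n * Y x + 8 * σ) = 8 * n * (X x ^ 2 * W x) := by
        intro x
        simp only [hW]
        field_simp
      have e1 : ∑ x, X x ^ 2 * (8 * n * Y x + 8 * σ) = 8 * n * ∑ x, X x ^ 2 * W x := by
        exact (Finset.sum_congr rfl fun x _ => e0 x).trans (Finset.mul_sum _ _ _).symm
      rw [e1]
      ring
    rw [e] at s3
    exact le_of_mul_le_mul_left s3 (by positivity)
  set B : ℝ := ∑ x, W x ^ 2 with hB
  have s5 : (∑ x, X x ^ 2 * W x) ^ 2 ≤ A * B := by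
    have := Finset.sum_mul_sq_le_sq_mul_sq (univ : Finset (Equiv.Perm (Fin n)))
      (fun x => X x ^ 2) W
    have e : ∑ x, (X x ^ 2) ^ 2 = A := Finset.sum_congr rfl fun x _ => by ring
    rwa [e] at this
  have hS0 : 0 ≤ ∑ x, X x ^ 2 * W x := Finset.sum_nonneg fun x _ =>
    mul_nonneg (sq_nonneg _) (add_nonneg (hY0 x) (div_nonneg hσ0 hn0.le))
  have s6 : A ≤ 36 * B := by
    rcases hA0.eq_or_lt with h0 | h0
    · rw [← h0]
      exact mul_nonneg (by norm_num) (Finset.sum_nonneg fun x _ => sq_nonneg _)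
    · have h1 : A * A ≤ A * (36 * B) := by nlinarith
      exact le_of_mul_le_mul_left h1 h0
  -- (H)
  have hcard : ∑ _x : Equiv.Perm (Fin n), (1 : ℝ) = n.factorial := by
    rw [Finset.sum_const, Finset.card_univ, Fintype.card_perm, Fintype.card_fin, nsmul_eq_mul,
      mul_one]
  have s7 : B ≤ 2 * ∑ x, Y x ^ 2 + 2 * (n.factorial * (σ ^ 2 / n ^ 2)) := by
    rw [← hcard, Finset.sum_mul, Finset.mul_sum, Finset.mul_sum, ← Finset.sum_add_distrib, hB]
    refine Finset.sum_le_sum fun x _ => ?_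
    simp only [hW]
    have : σ ^ 2 / (n : ℝ) ^ 2 = (σ / n) ^ 2 := by rw [div_pow]
    rw [this]
    nlinarith [sq_nonneg (Y x - σ / n)]
  have s8 : ∑ x, Y x ^ 2 ≤ n.factorial * (η ^ 2 * σ / n + 2 * σ ^ 2 / n ^ 2) := by
    have e1 : ∑ x, Y x ^ 2 = ∑ i, ∑ i', ∑ x : Equiv.Perm (Fin n), b i (x i) ^ 2 * b i' (x i') ^ 2 := by
      have : ∀ x, Y x ^ 2 = ∑ i, ∑ i', b i (x i) ^ 2 * b i' (x i') ^ 2 := by
        intro x; simp only [hY]; rw [sq, Finset.sum_mul_sum]
      simp only [this]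
      rw [Finset.sum_comm]
      refine Finset.sum_congr rfl fun i _ => ?_
      rw [Finset.sum_comm]
    set r : Fin n → ℝ := fun i => ∑ j, b i j ^ 2 with hr
    have hr0 : ∀ i, 0 ≤ r i := fun i => Finset.sum_nonneg fun j _ => sq_nonneg _
    have e2 : ∀ i i', (∑ x : Equiv.Perm (Fin n), b i (x i) ^ 2 * b i' (x i') ^ 2) ≤
        (if i = i' then n.factorial * (η ^ 2 * r i / n) else 0) +
          n.factorial * (2 / n ^ 2 * (r i * r i')) := by
      intro i i'
      rcases eq_or_ne i i' with rfl | hi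
      · rw [if_pos rfl]
        have h1 := sum_one h hn i (fun j => b i j ^ 4)
        have h2 : ∑ j, b i j ^ 4 ≤ η ^ 2 * r i := by
          rw [hr, Finset.mul_sum]
          refine Finset.sum_le_sum fun j _ => ?_
          have h3 := hb i j
          have h4 : b i j ^ 2 ≤ η ^ 2 := by
            rw [← sq_abs (b i j)]
            exact pow_le_pow_left₀ (abs_nonneg _) h3 2
          nlinarith [sq_nonneg (b i j)]
        have h5 : ∑ x : Equiv.Perm (Fin n), b i (x i) ^ 2 * b i (x i) ^ 2 ≤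
            n.factorial * (η ^ 2 * r i / n) := by
          have e3 : ∑ x : Equiv.Perm (Fin n), b i (x i) ^ 2 * b i (x i) ^ 2 =
              ∑ x : Equiv.Perm (Fin n), b i (x i) ^ 4 := Finset.sum_congr rfl fun x _ => by ring
          rw [e3]
          have h6 : (n : ℝ) * ∑ x : Equiv.Perm (Fin n), b i (x i) ^ 4 ≤
              n * (n.factorial * (η ^ 2 * r i / n)) := by
            rw [h1]
            have : (n : ℝ) * (n.factorial * (η ^ 2 * r i / n)) = n.factorial * (η ^ 2 * r i) := by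
              field_simp
            rw [this]
            exact mul_le_mul_of_nonneg_left h2 (Nat.cast_nonneg _)
          exact le_of_mul_le_mul_left h6 hn0
        have h7 : 0 ≤ (n.factorial : ℝ) * (2 / n ^ 2 * (r i * r i)) := by
          have := hr0 i
          positivity
        linarith
      · rw [if_neg hi, zero_add]
        have h1 := sum_two h hn i i' hi (fun j => b i j ^ 2) (fun j => b i' j ^ 2)
          (fun j => sq_nonneg _) (fun j => sq_nonneg _)
        have hn1 : (0 : ℝ) < n * (n - 1) := by nlinarith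
        have h2 : (n : ℝ) * (n - 1) * ∑ x : Equiv.Perm (Fin n), b i (x i) ^ 2 * b i' (x i') ^ 2 ≤
            n * (n - 1) * (n.factorial * (2 / n ^ 2 * (r i * r i'))) := by
          refine h1.trans ?_
          have h3 : (n : ℝ) * (n - 1) * (n.factorial * (2 / n ^ 2 * (r i * r i'))) =
              n.factorial * (r i * r i') * ((n * (n - 1)) * (2 / n ^ 2)) := by ring
          rw [h3]
          have h4 : 1 ≤ ((n : ℝ) * (n - 1)) * (2 / n ^ 2) := by
            rw [mul_div_assoc', le_div_iff₀ (by positivity)]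
            nlinarith
          have h5 : 0 ≤ (n.factorial : ℝ) * (r i * r i') := by
            have := hr0 i
            have := hr0 i'
            positivity
          nlinarith
        exact le_of_mul_le_mul_left h2 hn1
    rw [e1]
    calc ∑ i, ∑ i', ∑ x : Equiv.Perm (Fin n), b i (x i) ^ 2 * b i' (x i') ^ 2
        ≤ ∑ i, ∑ i', ((if i = i' then n.factorial * (η ^ 2 * r i / n) else 0) +
          n.factorial * (2 / n ^ 2 * (r i * r i'))) :=
          Finset.sum_le_sum fun i _ => Finset.sum_le_sum fun i' _ => e2 i i'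
      _ = n.factorial * (η ^ 2 * σ / n + 2 * σ ^ 2 / n ^ 2) := by
          simp only [Finset.sum_add_distrib, Finset.sum_ite_eq, Finset.mem_univ, if_true]
          have f1 : ∑ i, (n.factorial : ℝ) * (η ^ 2 * r i / n) = n.factorial * (η ^ 2 * σ / n) := by
            rw [← Finset.mul_sum, ← Finset.sum_div, ← Finset.mul_sum]
          have f2 : ∑ i, ∑ i', (n.factorial : ℝ) * (2 / n ^ 2 * (r i * r i')) =
              n.factorial * (2 * σ ^ 2 / n ^ 2) := by
            simp only [← Finset.mul_sum]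
            rw [← Finset.sum_mul]
            have : ∑ i, r i = σ := rfl
            rw [this]
            ring
          rw [f1, f2]
          ring
  have s9 : A ≤ 36 * (2 * (n.factorial * (η ^ 2 * σ / n + 2 * σ ^ 2 / n ^ 2)) +
      2 * (n.factorial * (σ ^ 2 / n ^ 2))) := by linarith
  refine s9.trans (le_of_eq ?_)
  ring
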