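import Pool.Agent.V5helper19.ER.Stm2

/-! Project ER, job CB -/

set_option autoImplicit false
open Finset V5helper19.ER

namespace V5helper6.ER.CB

variable {n : ℕ}

theorem mem_T {i j : Fin n} {x : G n} : x ∈ T i j ↔ (x : Equiv.Perm (Fin n)) i = j := by
  simp [T]

theorem mul_ap (x y : G n) (i : Fin n) :
    ((x * y : G n) : Equiv.Perm (Fin n)) i = (x : Equiv.Perm (Fin n)) ((y : Equiv.Perm (Fin n)) i) := by
  rw [Subgroup.coe_mul, Equiv.Perm.mul_apply]

theorem inv_ap {x : G n} {i j : Fin n} (h : (x : Equiv.Perm (Fin n)) i = j) :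
    ((x⁻¹ : G n) : Equiv.Perm (Fin n)) j = i := by
  rw [Subgroup.coe_inv, Equiv.Perm.inv_eq_iff_eq, h]

theorem ap_inv (x : G n) (i : Fin n) :
    (x : Equiv.Perm (Fin n)) (((x⁻¹ : G n) : Equiv.Perm (Fin n)) i) = i := by
  rw [← mul_ap, mul_inv_cancel]
  rfl

theorem mem_Der {x : G n} : x ∈ Der n ↔ ∀ i, (x : Equiv.Perm (Fin n)) i ≠ i := by
  simp [Der]

/-- the elements of `X` which take `i` to `j` -/
def F (X : Finset (G n)) (i j : Fin n) : Finset (G n) :=
  X.filter fun x : G n => (x : Equiv.Perm (Fin n)) i = j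

theorem mem_F {X : Finset (G n)} {i j : Fin n} {x : G n} :
    x ∈ F X i j ↔ x ∈ X ∧ (x : Equiv.Perm (Fin n)) i = j := by simp [F]

theorem F_sub_T (X : Finset (G n)) (i j : Fin n) : F X i j ⊆ T i j := fun _ hx =>
  mem_T.2 (mem_F.1 hx).2

/-- three subsets of a set -/
theorem three {α : Type} [DecidableEq α] {X A B C : Finset α} (hA : A ⊆ X) (hB : B ⊆ X)
    (hC : C ⊆ X) (hAB : Disjoint A B) :
    A.card + B.card + C.card ≤ X.card + (A ∩ C).card + (B ∩ C).card := by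
  have h1 : (A ∪ B ∪ C).card ≤ X.card :=
    Finset.card_le_card (Finset.union_subset (Finset.union_subset hA hB) hC)
  have h2 := Finset.card_union_add_card_inter (A ∪ B) C
  have h3 := Finset.card_union_of_disjoint hAB
  have h4 : ((A ∪ B) ∩ C).card ≤ (A ∩ C).card + (B ∩ C).card := by
    rw [Finset.union_inter_distrib_right]
    exact Finset.card_union_le _ _
  omega

end V5helper6.ER.CB

open V5helper6.ER.CB in
theorem V5helper6.ER.t_CB (hTR : S_TR) (_hDC : S_DC) (hCNT : S_CNT) (hLB : S_LB) : S_CB := by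
  refine ⟨100000, fun n hn D S hB l i₁ i₂ hi ha hm => ?_⟩
  classical
  obtain ⟨hT, hTT, -, -, -⟩ := hTR n (by omega)
  obtain ⟨-, -, hLB3⟩ := hLB n (by omega)
  have hD := hLB3 D S hB
  have hn0 : (100000 : ℝ) ≤ n := by exact_mod_cast hn
  have hn1 : (0 : ℝ) < n - 1 := by linarith
  have hnp : (0 : ℝ) < n := by linarith
  have hN : (0 : ℝ) < NN n := by
    unfold NN
    exact_mod_cast Fintype.card_pos
  have cT : ∀ i j : Fin n, (n : ℝ) * (T i j).card = NN n := by
    intro i j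
    unfold NN
    exact_mod_cast hT i j
  have cTT : ∀ i j i' j' : Fin n, i ≠ i' → j ≠ j' →
      (n : ℝ) * (n - 1) * (T i j ∩ T i' j').card = NN n := by
    intro i j i' j' h1 h2
    have h3 := hTT i j i' j' h1 h2
    have h4 : ((n - 1 : ℕ) : ℝ) = (n : ℝ) - 1 := by rw [Nat.cast_sub (by omega)]; simp
    unfold NN
    rw [← h4]
    exact_mod_cast h3
  have hDer : ((Der n).card : ℝ) ≤ NN n := by
    unfold NN
    exact_mod_cast Finset.card_le_univ _
  -- `d₀`
  obtain ⟨d₀, hd₀, hd₀D⟩ : ∃ d₀ ∈ DD i₁ i₂, d₀ ∉ D := by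
    by_contra hcon
    push Not at hcon
    have h1 := hB.lab_lt i₁ i₂ hi
    have h2 : lab (DD i₁ i₂) ≤ lab D := Finset.card_le_card (Finset.image_subset_image hcon)
    omega
  have hd₀' : d₀ ∈ Der n ∧ (d₀ : Equiv.Perm (Fin n)) i₁ = i₂ := by
    simpa [DD] using hd₀
  obtain ⟨hd₀1, hd₀2⟩ := hd₀'
  -- the parts of `S`
  set S1 := F S i₁ l with hS1
  set S2 := F S i₂ l with hS2
  set E := S2.image (fun x => x * d₀) with hE
  have cE : E.card = S2.card := Finset.card_image_of_injective _ (mul_left_injective d₀)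
  have hET : E ⊆ T i₁ l := by
    intro z hz
    obtain ⟨x, hx, rfl⟩ := Finset.mem_image.1 hz
    rw [mem_T, mul_ap, hd₀2]
    exact (mem_F.1 hx).2
  have hES : Disjoint S1 E := by
    rw [Finset.disjoint_left]
    intro z hz1 hz2
    obtain ⟨x, hx, rfl⟩ := Finset.mem_image.1 hz2
    exact hB.ind x (mem_F.1 hx).1 d₀ hd₀1 hd₀D (mem_F.1 hz1).1
  have hST : S1 ⊆ T i₁ l := F_sub_T _ _ _
  set R := T i₁ l \ (S1 ∪ E) with hR
  have cR : R.card + S1.card + S2.card = (T i₁ l).card := by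
    have h1 := Finset.card_sdiff_add_card_eq_card (Finset.union_subset hST hET)
    rw [Finset.card_union_of_disjoint hES, cE] at h1
    rw [hR]
    omega
  -- the sum of the two rows
  have hsum : (1 - 1 / 2000) * NN n ≤ n * (S1.card + S2.card : ℝ) := by
    unfold aa at ha
    have h1 : (n : ℝ) * ((S.filter fun x : G n => (x : Equiv.Perm (Fin n)) i₁ = l).card : ℝ) / NN n +
        n * ((S.filter fun x : G n => (x : Equiv.Perm (Fin n)) i₂ = l).card : ℝ) / NN n =
        n * (S1.card + S2.card : ℝ) / NN n := by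
      rw [← add_div, mul_add]
      rfl
    rw [h1, le_div_iff₀ hN] at ha
    exact ha
  have cR' : (n : ℝ) * R.card ≤ 1 / 2000 * NN n := by
    have h1 : (R.card : ℝ) + S1.card + S2.card = (T i₁ l).card := by exact_mod_cast cR
    have h2 := cT i₁ l
    have h3 : (n : ℝ) * R.card = NN n - n * (S1.card + S2.card : ℝ) := by
      rw [← h2, ← h1]; ring
    linarith
  -- `y`
  obtain ⟨y, hyS, hy1, hy2⟩ : ∃ y ∈ S, (y : Equiv.Perm (Fin n)) i₁ ≠ l ∧
      (y : Equiv.Perm (Fin n)) i₂ ≠ l := by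
    by_contra hcon
    push Not at hcon
    have h1 : S ⊆ S1 ∪ S2 := by
      intro x hx
      rw [Finset.mem_union]
      by_cases h : (x : Equiv.Perm (Fin n)) i₁ = l
      · exact Or.inl (mem_F.2 ⟨hx, h⟩)
      · exact Or.inr (mem_F.2 ⟨hx, hcon x hx h⟩)
    have h2 := (Finset.card_le_card h1).trans (Finset.card_union_le _ _)
    have h3 := hB.big
    have h4 := hT i₁ l
    have h5 : S.card ≤ (T i₁ l).card := by omega
    have h6 := Nat.mul_le_mul_left n h5
    omega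
  set k := ((y⁻¹ : G n) : Equiv.Perm (Fin n)) l with hk
  have hyk : (y : Equiv.Perm (Fin n)) k = l := by
    rw [hk, ap_inv]
  have hk1 : k ≠ i₁ := fun h => hy1 (h ▸ hyk)
  have hk2 : k ≠ i₂ := fun h => hy2 (h ▸ hyk)
  -- the parts of `D`
  have c12 : (F D i₂ i₁).card = (F D i₁ i₂).card := by
    refine Finset.card_bij' (fun d _ => d⁻¹) (fun d _ => d⁻¹) ?_ ?_ ?_ ?_
    · intro d hd
      obtain ⟨h1, h2⟩ := mem_F.1 hd
      exact mem_F.2 ⟨hB.inv d h1, inv_ap h2⟩
    · intro d hd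
      obtain ⟨h1, h2⟩ := mem_F.1 hd
      exact mem_F.2 ⟨hB.inv d h1, inv_ap h2⟩
    · intro d _; exact inv_inv d
    · intro d _; exact inv_inv d
  have hm' : (1 - 1 / 2000) * (Der n).card ≤ ((n : ℝ) - 1) * (F D i₁ i₂).card := by
    by_cases h0 : ((Der n).card : ℝ) = 0
    · rw [h0, mul_zero]
      positivity
    have h1 : (0 : ℝ) < (Der n).card := lt_of_le_of_ne (Nat.cast_nonneg _) (Ne.symm h0)
    unfold mm at hm
    rw [le_div_iff₀ h1] at hm
    exact hm
  have hsubD : ∀ i j : Fin n, F D i j ⊆ D := fun i j => Finset.filter_subset _ _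
  have hdisj : ∀ i j j' : Fin n, j ≠ j' → Disjoint (F D i j) (F D i j') := by
    intro i j j' hj
    rw [Finset.disjoint_left]
    intro x h1 h2
    exact hj ((mem_F.1 h1).2.symm.trans (mem_F.1 h2).2)
  have hinter : ∀ i j i' j' : Fin n, i ≠ i' → j ≠ j' →
      (n : ℝ) * (n - 1) * (F D i j ∩ F D i' j').card ≤ NN n := by
    intro i j i' j' h1 h2
    rw [← cTT i j i' j' h1 h2]
    refine mul_le_mul_of_nonneg_left ?_ (by positivity)
    exact_mod_cast Finset.card_le_card (Finset.inter_subset_inter (F_sub_T _ _ _) (F_sub_T _ _ _))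
  have hbound : ∀ A B C : Finset (G n), (A.card : ℝ) + B.card + C.card ≤
      D.card + (A ∩ C).card + (B ∩ C).card → B.card = (F D i₁ i₂).card →
      C.card = (F D i₁ i₂).card → (n : ℝ) * (n - 1) * (A ∩ C).card ≤ NN n →
      (n : ℝ) * (n - 1) * (B ∩ C).card ≤ NN n → (n : ℝ) * A.card ≤ 3 / 2000 * NN n := by
    intro A B C h1 h2 h3 h4 h5
    rw [h2, h3] at h1
    -- multiply by `n (n - 1)`
    have g1 : (n : ℝ) * (n - 1) * A.card ≤ n * (D.card * (n - 1)) + 2 * NN n -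
        2 * n * ((n - 1) * (F D i₁ i₂).card) := by
      have := mul_le_mul_of_nonneg_left h1 (show (0 : ℝ) ≤ n * (n - 1) by positivity)
      nlinarith
    have g2 : (n : ℝ) * (n - 1) * A.card ≤ n * (1 / 1000 * NN n) + 2 * NN n := by
      have q1 : (n : ℝ) * (D.card * (n - 1)) ≤ n * (2 * (Der n).card) :=
        mul_le_mul_of_nonneg_left hD hnp.le
      have q2 : 2 * (n : ℝ) * ((1 - 1 / 2000) * (Der n).card) ≤
          2 * n * ((n - 1) * (F D i₁ i₂).card) :=
        mul_le_mul_of_nonneg_left hm' (by positivity)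
      have q3 : (n : ℝ) * (1 / 1000 * (Der n).card) ≤ n * (1 / 1000 * NN n) := by
        refine mul_le_mul_of_nonneg_left ?_ hnp.le
        linarith
      linarith
    have g3 : ((n : ℝ) - 1) * (n * A.card) ≤ (n - 1) * (3 / 2000 * NN n) := by
      have : (n : ℝ) * (1 / 1000 * NN n) + 2 * NN n ≤ (n - 1) * (3 / 2000 * NN n) := by
        nlinarith
      linarith
    exact le_of_mul_le_mul_left g3 hn1
  have b1 : (n : ℝ) * (F D i₁ k).card ≤ 3 / 2000 * NN n := by
    refine hbound (F D i₁ k) (F D i₁ i₂) (F D i₂ i₁) ?_ rfl c12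
      (hinter _ _ _ _ hi hk1) (hinter _ _ _ _ hi hi.symm)
    exact_mod_cast three (hsubD _ _) (hsubD _ _) (hsubD _ _) (hdisj _ _ _ hk2)
  have b2 : (n : ℝ) * (F D i₂ k).card ≤ 3 / 2000 * NN n := by
    refine hbound (F D i₂ k) (F D i₂ i₁) (F D i₁ i₂) ?_ c12 rfl
      (hinter _ _ _ _ hi.symm hk2) (hinter _ _ _ _ hi.symm hi)
    exact_mod_cast three (hsubD _ _) (hsubD _ _) (hsubD _ _) (hdisj _ _ _ hk1)
  -- the set `Z`
  set Z := (DD i₁ k).filter fun r : G n =>
    ∀ x, (r : Equiv.Perm (Fin n)) x ≠ (d₀ : Equiv.Perm (Fin n)) x with hZ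
  have hZc : (NN n : ℝ) ≤ 170 * n * Z.card := by
    have := hCNT n (by omega) i₁ k d₀ hk1.symm (by rw [hd₀2]; exact hk2.symm)
    unfold NN
    exact_mod_cast this
  have hZm : ∀ r ∈ Z, r ∈ Der n ∧ (r : Equiv.Perm (Fin n)) i₁ = k ∧ r * d₀⁻¹ ∈ Der n ∧
      ((r * d₀⁻¹ : G n) : Equiv.Perm (Fin n)) i₂ = k := by
    intro r hr
    obtain ⟨h1, h2⟩ := Finset.mem_filter.1 hr
    have h3 : r ∈ Der n ∧ (r : Equiv.Perm (Fin n)) i₁ = k := by simpa [DD] using h1
    refine ⟨h3.1, h3.2, ?_, ?_⟩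
    · rw [mem_Der]
      intro x hx
      rw [mul_ap] at hx
      apply h2 (((d₀⁻¹ : G n) : Equiv.Perm (Fin n)) x)
      rw [hx, ap_inv]
    · rw [mul_ap, inv_ap hd₀2, h3.2]
  have hcov : Z ⊆ (Z.filter fun r => r ∈ D) ∪ (Z.filter fun r => r * d₀⁻¹ ∈ D) ∪
      (Z.filter fun r => r ∉ D ∧ r * d₀⁻¹ ∉ D) := by
    intro r hr
    simp only [Finset.mem_union, Finset.mem_filter, hr, true_and]
    tauto
  have z1 : (Z.filter fun r => r ∈ D).card ≤ (F D i₁ k).card := by
    refine Finset.card_le_card fun r hr => ?_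
    obtain ⟨h1, h2⟩ := Finset.mem_filter.1 hr
    exact mem_F.2 ⟨h2, (hZm r h1).2.1⟩
  have z2 : (Z.filter fun r => r * d₀⁻¹ ∈ D).card ≤ (F D i₂ k).card := by
    refine Finset.card_le_card_of_injOn (fun r => r * d₀⁻¹) (fun r hr => ?_)
      (fun a _ b _ hab => mul_left_injective d₀⁻¹ hab)
    obtain ⟨h1, h2⟩ := Finset.mem_filter.1 hr
    exact mem_F.2 ⟨h2, (hZm r h1).2.2.2⟩
  have z3 : (Z.filter fun r => r ∉ D ∧ r * d₀⁻¹ ∉ D).card ≤ R.card := by
    refine Finset.card_le_card_of_injOn (fun r => y * r) (fun r hr => ?_)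
      (fun a _ b _ hab => mul_right_injective y hab)
    obtain ⟨h1, h2, h3⟩ := Finset.mem_filter.1 hr
    obtain ⟨q1, q2, q3, q4⟩ := hZm r h1
    rw [Finset.mem_coe, hR, Finset.mem_sdiff, Finset.mem_union, not_or]
    refine ⟨?_, ?_, ?_⟩
    · rw [mem_T, mul_ap, q2, hyk]
    · intro h4
      exact hB.ind y hyS r q1 h2 (mem_F.1 h4).1
    · intro h4
      obtain ⟨x, hx, hxe⟩ := Finset.mem_image.1 h4
      have hxe' : x * d₀ = y * r := hxe
      have h5 : x = y * (r * d₀⁻¹) := by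
        rw [← mul_assoc, ← hxe', mul_inv_cancel_right]
      exact hB.ind y hyS (r * d₀⁻¹) q3 h3 (h5 ▸ (mem_F.1 hx).1)
  have hZ' : Z.card ≤ (F D i₁ k).card + (F D i₂ k).card + R.card := by
    have h1 := Finset.card_le_card hcov
    have h2 := Finset.card_union_le ((Z.filter fun r => r ∈ D) ∪ (Z.filter fun r => r * d₀⁻¹ ∈ D))
      (Z.filter fun r => r ∉ D ∧ r * d₀⁻¹ ∉ D)
    have h3 := Finset.card_union_le (Z.filter fun r => r ∈ D) (Z.filter fun r => r * d₀⁻¹ ∈ D)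
    omega
  have hZ'' : (Z.card : ℝ) ≤ (F D i₁ k).card + (F D i₂ k).card + R.card := by exact_mod_cast hZ'
  have hfin : 170 * (n : ℝ) * Z.card ≤ 170 * (7 / 2000 * NN n) := by
    have := mul_le_mul_of_nonneg_left hZ'' (show (0 : ℝ) ≤ 170 * n by positivity)
    nlinarith
  nlinarith
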